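import Pool.Agent.Q81.EX.Stm

/-!
# Job INV of project EX: the invariant set
-/

set_option autoImplicit false

namespace Pool.Agent.Q194.EX

open Set MeasureTheory Filter Topology Pool.Agent.Q81.EX

/-- bounded and continuous functions are integrable -/
lemma integrable_of_bound {f : ℝ → ℝ} {C : ℝ} (hc : ContinuousOn f (Ioo 0 1))
    (hb : ∀ x ∈ Ioo (0 : ℝ) 1, |f x| ≤ C) : IntervalIntegrable f volume 0 1 := by
  rw [intervalIntegrable_iff_integrableOn_Ioo_of_le zero_le_one]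
  refine Integrable.of_bound (hc.aestronglyMeasurable measurableSet_Ioo) C ?_
  exact (ae_restrict_iff' measurableSet_Ioo).2 (ae_of_all _ fun x hx => hb x hx)

/-- integrability of `h κ` -/
lemma integrable_h {h κ : ℝ → ℝ} (hh : Hb h) (hκ : Continuous κ)
    (hb : ∀ x ∈ Ioo (0 : ℝ) 1, |κ x| ≤ 1 - x) :
    IntervalIntegrable (fun r => h r * κ r) volume 0 1 := by
  refine integrable_of_bound (C := 12)
    ((hh.cont.mono Ioo_subset_Ico_self).mul hκ.continuousOn) fun x hx => ?_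
  have h1 : 0 < 1 - x := by linarith [hx.2]
  have h2 := hh.le x ⟨hx.1.le, hx.2⟩
  have h3 := hh.nonneg x ⟨hx.1.le, hx.2⟩
  rw [abs_mul, abs_of_nonneg h3]
  calc h x * |κ x| ≤ 12 / (1 - x) * (1 - x) :=
        mul_le_mul h2 (hb x hx) (abs_nonneg _) (by positivity)
    _ = 12 := by field_simp

lemma k3_bd (x : ℝ) (hx : x ∈ Ioo (0 : ℝ) 1) : |(x - x ^ 3) / 6| ≤ 1 - x := by
  have h1 : 0 < 1 - x := by linarith [hx.2]
  have h2 := hx.1
  have e : (x - x ^ 3) / 6 = (1 - x) * (x * (1 + x) / 6) := by ring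
  rw [e, abs_of_nonneg (by positivity)]
  have h3 : x * (1 + x) / 6 ≤ 1 := by nlinarith [hx.2]
  calc (1 - x) * (x * (1 + x) / 6) ≤ (1 - x) * 1 := mul_le_mul_of_nonneg_left h3 h1.le
    _ = 1 - x := mul_one _

lemma k4_bd (x : ℝ) (hx : x ∈ Ioo (0 : ℝ) 1) : |(x - x ^ 4) / 12| ≤ 1 - x := by
  have h1 : 0 < 1 - x := by linarith [hx.2]
  have h2 := hx.1
  have h4 := hx.2
  have e : (x - x ^ 4) / 12 = (1 - x) * (x * (1 + x + x ^ 2) / 12) := by ring
  rw [e, abs_of_nonneg (by positivity)]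
  have h5 : x ^ 2 ≤ 1 := by nlinarith
  have h6 : x * (1 + x + x ^ 2) ≤ 1 * 3 := by
    apply mul_le_mul h4.le (by linarith) (by positivity) (by norm_num)
  have h3 : x * (1 + x + x ^ 2) / 12 ≤ 1 := by linarith
  calc (1 - x) * (x * (1 + x + x ^ 2) / 12) ≤ (1 - x) * 1 := mul_le_mul_of_nonneg_left h3 h1.le
    _ = 1 - x := mul_one _

lemma int_poly1 : ∫ r in (0 : ℝ)..1, r ^ 2 * (1 - r) ^ 2 * (1 + r) = 1 / 20 := by
  have e : (fun r : ℝ => r ^ 2 * (1 - r) ^ 2 * (1 + r)) = fun r => r ^ 2 - r ^ 3 - r ^ 4 + r ^ 5 := by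
    funext r; ring
  rw [e, intervalIntegral.integral_add, intervalIntegral.integral_sub,
    intervalIntegral.integral_sub]
  · simp only [integral_pow]; norm_num
  all_goals exact Continuous.intervalIntegrable (by fun_prop) _ _

lemma int_poly2 : ∫ r in (0 : ℝ)..1, r ^ 2 * (1 - r) ^ 3 = 1 / 60 := by
  have e : (fun r : ℝ => r ^ 2 * (1 - r) ^ 3) =
      fun r => r ^ 2 - 3 * r ^ 3 + 3 * r ^ 4 - r ^ 5 := by
    funext r; ring
  rw [e, intervalIntegral.integral_sub, intervalIntegral.integral_add,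
    intervalIntegral.integral_sub, intervalIntegral.integral_const_mul,
    intervalIntegral.integral_const_mul]
  · simp only [integral_pow]; norm_num
  all_goals exact Continuous.intervalIntegrable (by fun_prop) _ _

lemma int_rsqrt : IntervalIntegrable (fun r : ℝ => (1 - r) ^ (-(1 / 2) : ℝ)) volume 0 1 ∧
    ∫ r in (0 : ℝ)..1, (1 - r) ^ (-(1 / 2) : ℝ) = 2 := by
  constructor
  · have h := (intervalIntegral.intervalIntegrable_rpow' (a := 0) (b := 1)
      (r := -(1 / 2)) (by norm_num)).comp_sub_left 1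
    simp only [sub_zero, sub_self] at h
    exact h.symm
  · rw [intervalIntegral.integral_comp_sub_left (fun x : ℝ => x ^ (-(1 / 2) : ℝ)) 1,
      integral_rpow (Or.inl (by norm_num))]
    norm_num

theorem inv (hFDV : S_FDV) (hFIN : S_FIN) (hHHB : S_HHB) (hQCV : S_QCV) (hQIN : S_QIN) :
    S_INV := by
  intro p hp hD
  obtain ⟨_, -, -, -, hF⟩ := hFDV p hp
  obtain ⟨hD0, hFD⟩ := hFIN p hp
  obtain ⟨hHb, hh8⟩ := hHHB p hp
  obtain ⟨qc, qconc, q0, q1, qb, -, -⟩ := hQCV _ hHb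
  obtain ⟨i1, i2⟩ := hQIN _ hHb
  obtain ⟨D, hDd⟩ : ∃ D, D = DD p := ⟨_, rfl⟩
  obtain ⟨q, hq⟩ : ∃ q, q = qq (hh p) := ⟨_, rfl⟩
  rw [← hDd] at hD hD0 hFD ⊢
  have hTT : TT p = fun s => 2 / 3 / I1 q * q s := by
    rw [hq]; rfl
  rw [hTT, ← hq]
  rw [← hq] at qc qconc q0 q1 qb i1 i2
  have hdl : 0 < dl := by unfold dl; norm_num
  have hDpos : 0 < D := lt_of_lt_of_le hdl hD
  have c3 : Continuous fun r : ℝ => (r - r ^ 3) / 6 := by fun_prop
  have c4 : Continuous fun r : ℝ => (r - r ^ 4) / 12 := by fun_prop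
  have j1 := integrable_h hHb c3 k3_bd
  have j2 := integrable_h hHb c4 k4_bd
  have hlow : ∀ r ∈ Ioo (0 : ℝ) 1, D / 8 * (r * (1 - r)) ≤ hh p r := by
    intro r hr
    have h1 := (hh8 r ⟨hr.1.le, hr.2⟩).1
    have h2 := (hFD r ⟨hr.1.le, hr.2.le⟩).1
    linarith
  -- (1)
  have b1 : D / 960 ≤ I1 q := by
    have h1 : ∫ r in (0 : ℝ)..1, D / 48 * (r ^ 2 * (1 - r) ^ 2 * (1 + r)) ≤
        ∫ r in (0 : ℝ)..1, hh p r * ((r - r ^ 3) / 6) := by
      refine intervalIntegral.integral_mono_on_of_le_Ioo zero_le_one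
        (Continuous.intervalIntegrable (by fun_prop) _ _) j1 fun r hr => ?_
      have h2 := hlow r hr
      have h3 : 0 < 1 - r := by linarith [hr.2]
      have h4 := hr.1
      have h5 : 0 ≤ r * (1 - r) * (1 + r) / 6 := by positivity
      have h6 := mul_le_mul_of_nonneg_right h2 h5
      calc D / 48 * (r ^ 2 * (1 - r) ^ 2 * (1 + r)) =
          D / 8 * (r * (1 - r)) * (r * (1 - r) * (1 + r) / 6) := by ring
        _ ≤ hh p r * (r * (1 - r) * (1 + r) / 6) := h6
        _ = hh p r * ((r - r ^ 3) / 6) := by ring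
    rw [intervalIntegral.integral_const_mul, int_poly1, ← i1] at h1
    linarith
  have hI : 0 < I1 q := by
    have : 0 < D / 960 := by positivity
    linarith
  -- (2)
  have b2 : I1 q ≤ 8 * √(2 * D) := by
    have h1 : ∫ r in (0 : ℝ)..1, hh p r * ((r - r ^ 3) / 6) ≤
        ∫ r in (0 : ℝ)..1, 4 * √(2 * D) * (1 - r) ^ (-(1 / 2) : ℝ) := by
      refine intervalIntegral.integral_mono_on_of_le_Ioo zero_le_one j1
        (int_rsqrt.1.const_mul _) fun r hr => ?_
      have h3 : 0 < 1 - r := by linarith [hr.2]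
      have h4 := hr.1
      have h2 := (hh8 r ⟨hr.1.le, hr.2⟩).2
      have h6 := hF r ⟨hr.1.le, hr.2.le⟩
      have h7 := (hFD r ⟨hr.1.le, hr.2.le⟩).2
      have h8 : FF p r ≤ √(2 * D) * √(1 - r) := by
        rw [← Real.sqrt_mul (by positivity)]
        apply Real.le_sqrt_of_sq_le
        rw [sq]
        exact mul_le_mul h7 h6.2 h6.1 (by positivity)
      have h9 : (1 - r) ^ (-(1 / 2) : ℝ) = 1 / √(1 - r) := by
        rw [Real.rpow_neg h3.le, ← Real.sqrt_eq_rpow, one_div]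
      have h5 : 0 ≤ r * (1 - r) * (1 + r) / 6 := by positivity
      have hs : 0 < √(1 - r) := Real.sqrt_pos.2 h3
      have hss : √(1 - r) * √(1 - r) = 1 - r := Real.mul_self_sqrt h3.le
      calc hh p r * ((r - r ^ 3) / 6) = hh p r * (r * (1 - r) * (1 + r) / 6) := by ring
        _ ≤ 12 * FF p r / (1 - r) ^ 2 * (r * (1 - r) * (1 + r) / 6) :=
          mul_le_mul_of_nonneg_right h2 h5
        _ = FF p r / (1 - r) * (2 * (r * (1 + r))) := by field_simp; ring
        _ ≤ FF p r / (1 - r) * (2 * 2) := by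
          have : 0 ≤ FF p r / (1 - r) := div_nonneg h6.1 h3.le
          have h10 : r * (1 + r) ≤ 2 := by nlinarith [hr.2]
          exact mul_le_mul_of_nonneg_left (by linarith) this
        _ ≤ √(2 * D) * √(1 - r) / (1 - r) * (2 * 2) := by
          have : FF p r / (1 - r) ≤ √(2 * D) * √(1 - r) / (1 - r) :=
            div_le_div_of_nonneg_right h8 h3.le
          linarith
        _ = 4 * √(2 * D) * (1 - r) ^ (-(1 / 2) : ℝ) := by
          rw [h9]
          have : √(1 - r) / (1 - r) = 1 / √(1 - r) := by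
            rw [div_eq_div_iff h3.ne' hs.ne', one_mul]; exact hss
          calc √(2 * D) * √(1 - r) / (1 - r) * (2 * 2) =
              4 * √(2 * D) * (√(1 - r) / (1 - r)) := by ring
            _ = _ := by rw [this]
    rw [intervalIntegral.integral_const_mul, int_rsqrt.2, ← i1] at h1
    linarith
  -- (3)
  have b3 : D / 17280 ≤ 1 / 2 * I1 q - 2 / 3 * I2 q := by
    have h1 : ∫ r in (0 : ℝ)..1, D / 288 * (r ^ 2 * (1 - r) ^ 3) ≤
        ∫ r in (0 : ℝ)..1, (1 / 2 * (hh p r * ((r - r ^ 3) / 6)) -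
          2 / 3 * (hh p r * ((r - r ^ 4) / 12))) := by
      refine intervalIntegral.integral_mono_on_of_le_Ioo zero_le_one
        (Continuous.intervalIntegrable (by fun_prop) _ _)
        ((j1.const_mul _).sub (j2.const_mul _)) fun r hr => ?_
      have h2 := hlow r hr
      have h3 : 0 < 1 - r := by linarith [hr.2]
      have h4 := hr.1
      have h5 : 0 ≤ r * (1 - r) ^ 2 * (1 + 2 * r) / 36 := by positivity
      have h6 := mul_le_mul_of_nonneg_right h2 h5
      calc D / 288 * (r ^ 2 * (1 - r) ^ 3) ≤ D / 288 * (r ^ 2 * (1 - r) ^ 3) * (1 + 2 * r) := by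
            have : 0 ≤ D / 288 * (r ^ 2 * (1 - r) ^ 3) := by positivity
            nlinarith
        _ = D / 8 * (r * (1 - r)) * (r * (1 - r) ^ 2 * (1 + 2 * r) / 36) := by ring
        _ ≤ hh p r * (r * (1 - r) ^ 2 * (1 + 2 * r) / 36) := h6
        _ = _ := by ring
    rw [intervalIntegral.integral_const_mul, int_poly2,
      intervalIntegral.integral_sub (j1.const_mul _) (j2.const_mul _),
      intervalIntegral.integral_const_mul, intervalIntegral.integral_const_mul, ← i1, ← i2] at h1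
    linarith
  have hcoef : 0 ≤ 2 / 3 / I1 q := by positivity
  have m1 : I1 (fun s => 2 / 3 / I1 q * q s) = 2 / 3 := by
    have e : (fun r : ℝ => r * (2 / 3 / I1 q * q r)) = fun r => 2 / 3 / I1 q * (r * q r) := by
      funext r; ring
    change ∫ r in (0 : ℝ)..1, r * (2 / 3 / I1 q * q r) = 2 / 3
    rw [e, intervalIntegral.integral_const_mul]
    change 2 / 3 / I1 q * I1 q = 2 / 3
    field_simp
  have m2 : I2 (fun s => 2 / 3 / I1 q * q s) = 2 / 3 / I1 q * I2 q := by
    have e : (fun r : ℝ => r ^ 2 * (2 / 3 / I1 q * q r)) =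
        fun r => 2 / 3 / I1 q * (r ^ 2 * q r) := by
      funext r; ring
    change ∫ r in (0 : ℝ)..1, r ^ 2 * (2 / 3 / I1 q * q r) = _
    rw [e, intervalIntegral.integral_const_mul]
    rfl
  refine ⟨by linarith, ⟨?_, ?_, ?_, ?_, m1⟩, ?_, ?_⟩
  · exact continuousOn_const.mul qc
  · exact qconc.smul hcoef
  · simp only [q0, mul_zero]
  · simp only [q1, mul_zero]
  · -- the distance
    unfold DD
    rw [m2]
    have e : 1 / 2 - 2 / 3 / I1 q * I2 q = (1 / 2 * I1 q - 2 / 3 * I2 q) / I1 q := by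
      field_simp
    rw [e, le_div_iff₀ hI]
    refine le_trans ?_ b3
    have hsD : 0 < √D := Real.sqrt_pos.2 hDpos
    have hs2 : √2 ≤ 1.415 := by
      rw [Real.sqrt_le_left (by norm_num)]
      norm_num
    have e2 : √(2 * D) = √2 * √D := Real.sqrt_mul (by norm_num) _
    have hsq : √D * √D = D := Real.mul_self_sqrt hDpos.le
    have hdl2 : 1 / 200000 ≤ √D := by
      apply Real.le_sqrt_of_sq_le
      exact hD
    have h1 : dl * I1 q ≤ dl * (8 * (√2 * √D)) := by
      rw [← e2]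
      exact mul_le_mul_of_nonneg_left b2 hdl.le
    have h2 : dl * (8 * (√2 * √D)) ≤ (1 / 200000) ^ 2 * (8 * (1.415 * √D)) := by
      unfold dl
      gcongr
    have h3 : (1 / 200000 : ℝ) ^ 2 * (8 * (1.415 * √D)) ≤ (1 / 200000) * √D * (8 * (1.415 * √D)) := by
      rw [sq]
      gcongr
    have h4 : (1 / 200000) * √D * (8 * (1.415 * √D)) = 11.32 / 200000 * (√D * √D) := by ring
    rw [hsq] at h4
    have h5 : 11.32 / 200000 * D ≤ D / 17280 := by
      linarith
    linarith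
  · -- the bound
    intro s hs
    have h1 := qb s hs
    have h2 : 2 / 3 / I1 q ≤ 960 / dl := by
      rw [div_div, div_le_div_iff₀ (by positivity) hdl]
      nlinarith
    have h3 : 0 ≤ s * √(1 - s) := mul_nonneg hs.1 (Real.sqrt_nonneg _)
    calc 2 / 3 / I1 q * q s ≤ 960 / dl * (24 * (s * √(1 - s))) :=
          mul_le_mul h2 h1.2 h1.1 (by positivity)
      _ = Cc * (s * √(1 - s)) := by unfold Cc; ring

end Pool.Agent.Q194.EX
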